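import Pool.Agent.TS.B.Fin
import Pool.Agent.UPQ.H.Ind

/-!
# TS/B-Pol: the bounded theorem with poles

Instead of the Hasse-Weil conjecture over the fields with even local degrees it is only assumed that the
completed L-functions of `F` and of its quadratic extensions become entire when multiplied by an admissible
function which depends on `F`, and that the poles in `1 ≤ Re s ≤ 3/2` have order less than `2 ^ j`; the bound for
the degrees is multiplied by `2 ^ j` (theorem `towv_hw` of project UPQ; compare TF2/F/Pol.lean).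
-/

namespace Pool.Agent.TS

open NumberField IsDedekindDomain Pool.Agent.HWR Pool.Agent.QD Pool.Agent.H73.AL Pool.Agent.LD

theorem evV_ext {V T : Finset ℕ} {K L : Type} [Field K] [NumberField K] [Field L]
    [NumberField L] [Algebra K L] (h : EvV V T K) : EvV V T L := by
  intro p hpV hp hpT w hw
  have hmem : ((p : ℕ) : 𝓞 K) ∈ w.asIdeal.comap (algebraMap (𝓞 K) (𝓞 L)) := by
    rw [Ideal.mem_comap, map_natCast]
    exact hw
  have hwp : w.asIdeal.IsPrime := w.isPrime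
  have hne : w.asIdeal.comap (algebraMap (𝓞 K) (𝓞 L)) ≠ ⊥ := by
    intro h0
    rw [h0, Ideal.mem_bot] at hmem
    exact hp.ne_zero (by exact_mod_cast hmem)
  have h1 := h p hpV hp hpT ⟨_, Ideal.IsPrime.comap _, hne⟩ hmem
  rw [locDeg_tower ℚ K L ⟨_, Ideal.IsPrime.comap _, hne⟩ w rfl]
  exact h1.mul_right _

/-- the hypothesis for a field: a multiplier for it and for its quadratic extensions of degree at most `N` outside
the list `L`, and poles of order less than `2 ^ j` -/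
def HypQ {T : Finset ℕ} (D : LocData T) (a : ℕ → ℝ) (j N : ℕ) (L : List NF) (F : NF) : Prop :=
  ∃ Q : ℂ → ℂ, Pool.Agent.UPQ.IsAdm Q ∧ Pool.Agent.UPQ.HWG D a Q F.F ∧
    (∀ z : ℂ, 1 ≤ z.re → z.re ≤ 3 / 2 → Pool.Agent.UPQ.PoleLe D a Q F.F z (2 ^ j - 1)) ∧
    ∀ (E : Type) [Field E] [NumberField E] [Algebra F.F E], Module.finrank F.F E = 2 →
      Module.finrank ℚ E ≤ N → (∀ X ∈ L, ¬ Nonempty (X.F ≃+* E)) → Pool.Agent.UPQ.HWG D a Q E

/-- towers of quadratic extensions of fields with even local degrees -/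
theorem towv_ev {T : Finset ℕ} (D : LocData T) {a : ℕ → ℝ} {V : Finset ℕ} {j M N : ℕ}
    (H : ∀ F : NF, M ∣ Module.finrank ℚ F.F → Module.finrank ℚ F.F ≤ N → EvV V T F.F →
      HypQ D a j N [] F) (i : ℕ) :
    ∀ (F : Type) [Field F] [NumberField F], EvV V T F → M ∣ Module.finrank ℚ F →
      2 ^ i * Module.finrank ℚ F ≤ N → Pool.Agent.UPQ.TowV D a (2 ^ j - 1) i F := by
  induction i with
  | zero =>
    intro F _ _ h1 h2 h3
    obtain ⟨Q, g1, g2, g3, -⟩ := H ⟨F⟩ h2 (by simpa using h3) h1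
    exact ⟨Q, g1, g2, g3⟩
  | succ i ih =>
    intro F _ _ h1 h2 h3
    have h4 : Module.finrank ℚ F ≤ N := by
      refine le_trans ?_ h3
      exact Nat.le_mul_of_pos_left _ (by positivity)
    obtain ⟨Q, g1, g2, -, g3⟩ := H ⟨F⟩ h2 h4 h1
    have h5 : ∀ (L : Type) [Field L] [NumberField L] [Algebra F L], Module.finrank F L = 2 →
        2 ^ i * Module.finrank ℚ L ≤ N := by
      intro L _ _ _ hL
      rw [← Module.finrank_mul_finrank ℚ F L, hL]
      rw [pow_succ] at h3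
      linarith
    refine ⟨⟨Q, g1, g2, fun L _ _ _ hL => g3 L hL ?_ fun X hX => absurd hX List.not_mem_nil⟩,
      fun L _ _ _ hL => ih L (evV_ext (K := F) h1) ?_ (h5 L hL)⟩
    · refine le_trans ?_ (h5 L hL)
      exact Nat.le_mul_of_pos_left _ (by positivity)
    · rw [← Module.finrank_mul_finrank ℚ F L]
      exact h2.mul_right _

/-- from the version with poles to the Hasse-Weil conjecture, with exceptions -/
theorem hwv_ev {T : Finset ℕ} (hTp : ∀ p ∈ T, p.Prime)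
    (hT : ∀ p : ℕ, p.Prime → p < 101 → p ∈ T) (D : LocData T) {a : ℕ → ℝ}
    (ha : ∀ q : ℕ, |a q| ≤ 2 * Real.sqrt q) (hfr : FrobRel T a)
    (haz : ∀ q : ℕ, ∃ n : ℤ, a q = n) (V : Finset ℕ) (M N : ℕ) (L : List NF) {j : ℕ}
    (H : ∀ F : NF, M ∣ Module.finrank ℚ F.F → Module.finrank ℚ F.F ≤ 2 ^ j * N →
      EvV V T F.F → (∀ X ∈ L, ¬ Nonempty (X.F ≃+* F.F)) → HypQ D a j (2 ^ j * N) L F) :
    ∃ V' : Finset ℕ, ∀ F : NF, M ∣ Module.finrank ℚ F.F → Module.finrank ℚ F.F ≤ N →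
      EvV V' T F.F → D.HW a F.F := by
  obtain ⟨V', hV, hX⟩ := exists_V V T L
  refine ⟨V', fun F h1 h2 h3 => ?_⟩
  have hr : 2 ^ j - 1 < 2 ^ j := by
    have h4 : 0 < 2 ^ j := by positivity
    omega
  refine Pool.Agent.UPQ.towv_hw hTp hT D ha hfr haz hr F.F ?_
  refine towv_ev D (V := V') (M := M) (N := 2 ^ j * N) (fun E h4 h5 hE => ?_) j F.F h3 h1 ?_
  · obtain ⟨Q, g1, g2, g3, g4⟩ := H E h4 h5 (fun p hp => hE p (hV hp)) (hX E hE)
    refine ⟨Q, g1, g2, g3, fun Y _ _ _ hY h6 _ => g4 Y hY h6 ?_⟩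
    exact hX ⟨Y⟩ (evV_ext (K := E.F) hE)
  · exact Nat.mul_le_mul_left _ h2

/-- `u_pol`: `u_main` with poles allowed in the hypothesis -/
theorem u_pol : ∃ Bd : ℕ → ℕ → ℕ, ∀ {T : Finset ℕ} (_ : ∀ p ∈ T, p.Prime)
    (_ : ∀ p : ℕ, p.Prime → p < 101 → p ∈ T) (D : LocData T) (a : ℕ → ℝ)
    (_ : ∀ q : ℕ, |a q| ≤ 2 * Real.sqrt q) (_ : FrobRel T a)
    (_ : ∀ q : ℕ, ∃ n : ℤ, a q = n) (V : Finset ℕ) (L : List NF) (n m j : ℕ) (_ : D.HW a ℚ)
    (_ : ∀ F : NF, InfinitePlace.nrComplexPlaces F.F = 0 → 2 ^ m * n ∣ Module.finrank ℚ F.F →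
      Module.finrank ℚ F.F ≤ Bd n m → D.HW a F.F)
    (_ : ∀ F : NF, 2 ^ m * n ∣ Module.finrank ℚ F.F → Module.finrank ℚ F.F ≤ 2 ^ j * Bd n m →
      EvV V T F.F → (∀ X ∈ L, ¬ Nonempty (X.F ≃+* F.F)) → HypQ D a j (2 ^ j * Bd n m) L F)
    (K : NF) (_ : Module.finrank ℚ K.F = n), D.HW a K.F := by
  obtain ⟨Bd, hBd⟩ := u_main
  refine ⟨Bd, ?_⟩
  intro T hTp hT D a ha hfr haz V L n m j h0 hR hE K hK
  obtain ⟨V', hV'⟩ := hwv_ev hTp hT D ha hfr haz V (2 ^ m * n) (Bd n m) L hE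
  exact hBd hTp hT D a ha hfr V' [] n m h0 hR (fun F h1 h2 h3 _ => hV' F h1 h2 h3) K hK

end Pool.Agent.TS
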