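import Pool.Agent.TS.B.Main
import Pool.Agent.H73.AL.Extract

/-!
# TS/B-Alg: every number field is related to `ℚ` and fields of bounded degree divisible by `M`

As H73/AL/Extract.
-/

namespace Pool.Agent.TS

open NumberField Pool.Agent.H73.DU Pool.Agent.H73.AL

theorem PB_lists {G : Type} [Group G] [TopologicalSpace G] {𝒰 : Set (Subgroup G)} {m B : ℕ}
    {f : Subgroup G → ℤ} (hf : f ∈ PB 𝒰 m B) :
    ∃ A A' : List (Subgroup G), (∀ J ∈ A ++ A', IsOpen (J : Set G) ∧ m ∣ J.index ∧
      J.index ≤ B) ∧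
      ∀ U ∈ 𝒰, f U + (A.map fun J => pc J U).sum = (A'.map fun J => pc J U).sum := by
  unfold PB at hf
  induction hf using AddSubgroup.closure_induction with
  | mem f hf =>
    rcases hf with ⟨H, hH, hm, hB, rfl⟩ | hf
    · refine ⟨[], [H], ?_, ?_⟩
      · intro J hJ
        simp only [List.nil_append, List.mem_singleton] at hJ
        rw [hJ]
        exact ⟨hH, hm, hB⟩
      · intro U _
        simp
    · refine ⟨[], [], ?_, ?_⟩
      · intro J hJ
        simp at hJ
      · intro U hU
        simp [hf U hU]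
  | zero =>
    refine ⟨[], [], ?_, ?_⟩
    · intro J hJ
      simp at hJ
    · intro U _
      simp
  | add f f' _ _ h h' =>
    obtain ⟨A, A1, h1, h2⟩ := h
    obtain ⟨A', A1', h1', h2'⟩ := h'
    refine ⟨A ++ A', A1 ++ A1', ?_, ?_⟩
    · intro J hJ
      simp only [List.mem_append] at hJ h1 h1'
      rcases hJ with (h | h) | (h | h)
      · exact h1 J (Or.inl h)
      · exact h1' J (Or.inl h)
      · exact h1 J (Or.inr h)
      · exact h1' J (Or.inr h)
    · intro U hU
      rw [List.map_append, List.sum_append, List.map_append, List.sum_append, Pi.add_apply,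
        ← h2 U hU, ← h2' U hU]
      ring
  | neg f _ h =>
    obtain ⟨A, A', h1, h2⟩ := h
    refine ⟨A', A, ?_, ?_⟩
    · intro J hJ
      simp only [List.mem_append] at hJ h1
      exact h1 J hJ.symm
    · intro U hU
      rw [Pi.neg_apply, ← h2 U hU]
      ring

theorem alg_marksB (M : ℕ) (hM : M ≠ 0) : ∃ c : ℕ → ℕ, ∀ (T : Finset ℕ) (K : NF),
    ∃ A B : List NF, (∀ F ∈ A ++ B, Module.finrank ℚ F.F = 1 ∨
      (M ∣ Module.finrank ℚ F.F ∧ Module.finrank ℚ F.F ≤ c (Module.finrank ℚ K.F))) ∧
      Rel T (K :: A) B := by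
  classical
  obtain ⟨c, hc⟩ := mainB M hM
  refine ⟨c, fun T K => ?_⟩
  obtain ⟨φ⟩ : Nonempty (K.F →+* AlgebraicClosure ℚ) := inferInstance
  set H := MulAction.stabilizer GQ φ with hH
  have hHo : IsOpen (H : Set GQ) := stab_open K.F φ
  have hHi : H.index = Module.finrank ℚ K.F := by
    have h3 := congrFun (mark_eq_pc K.F φ) ⊥
    rw [pc_bot, mark, pch_bot] at h3
    have h4 := NumberField.Embeddings.card K.F (AlgebraicClosure ℚ)
    rw [← Nat.card_eq_fintype_card] at h4
    rw [h4] at h3
    exact_mod_cast h3.symm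
  have h1 := hc GQ (famT T) (nice_rat T) (Module.finrank ℚ K.F) H hHo hHi.le
  obtain ⟨A, B, hAB, h2⟩ := PB_lists h1
  obtain ⟨Q, hQ, hQ1⟩ := exists_field ⊤ isOpen_univ
  have hlist : ∀ C : List (Subgroup GQ), (∀ J ∈ C, IsOpen (J : Set GQ) ∧ M ∣ J.index ∧
      J.index ≤ c (Module.finrank ℚ K.F)) →
      ∃ C' : List NF, (∀ F ∈ C', M ∣ Module.finrank ℚ F.F ∧
        Module.finrank ℚ F.F ≤ c (Module.finrank ℚ K.F)) ∧
        ∀ U, (C'.map fun F => mark F.F U).sum = (C.map fun J => pc J U).sum := by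
    intro C
    induction C with
    | nil => exact fun _ => ⟨[], by simp, fun U => rfl⟩
    | cons J C ih =>
      intro hC
      obtain ⟨C', h3, h4⟩ := ih fun J' hJ' => hC J' (List.mem_cons_of_mem _ hJ')
      obtain ⟨F, hF, hF1⟩ := exists_field J (hC J List.mem_cons_self).1
      refine ⟨F :: C', ?_, fun U => ?_⟩
      · intro F' hF'
        rcases List.mem_cons.1 hF' with rfl | h5
        · rw [hF1]; exact (hC J List.mem_cons_self).2
        · exact h3 F' h5
      · rw [List.map_cons, List.map_cons, List.sum_cons, List.sum_cons, h4, hF]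
  obtain ⟨A', hA', hA''⟩ := hlist A fun J hJ => hAB J (List.mem_append.2 (Or.inl hJ))
  obtain ⟨B', hB', hB''⟩ := hlist B fun J hJ => hAB J (List.mem_append.2 (Or.inr hJ))
  refine ⟨A', List.replicate H.index Q ++ B', ?_, ?_⟩
  · intro F hF
    simp only [List.mem_append] at hF
    rcases hF with h | h | h
    · exact Or.inr (hA' F h)
    · left
      rw [(List.mem_replicate.1 h).2, hQ1, Subgroup.index_top]
    · exact Or.inr (hB' F h)
  · intro U hU
    rw [List.map_cons, List.sum_cons, hA'', List.map_append, List.sum_append, hB'', ← h2 U hU,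
      List.map_replicate, List.sum_replicate, hQ, pc_top, mark_eq_pc K.F φ]
    simp only [Pi.sub_apply, Pi.smul_apply, Pi.one_apply, smul_eq_mul, mul_one, nsmul_eq_mul]
    ring

end Pool.Agent.TS
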