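import Pool.Agent.H73.DU.EStep

/-!
# TS/B-Def: the groups `P` with a bound for the indices
-/

namespace Pool.Agent.TS

open MulAction Pool.Agent.H73.DU

section basic

variable {G : Type} [Group G] [TopologicalSpace G]

/-- combinations of the marks of degree divisible by `m`, at most `B`, modulo functions vanishing
on `𝒰` -/
def PB (𝒰 : Set (Subgroup G)) (m B : ℕ) : AddSubgroup (Subgroup G → ℤ) :=
  AddSubgroup.closure {f | (∃ H : Subgroup G, IsOpen (H : Set G) ∧ m ∣ H.index ∧ H.index ≤ B ∧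
    f = pc H) ∨ ∀ U ∈ 𝒰, f U = 0}

variable {𝒰 : Set (Subgroup G)}

theorem pc_mem_PB {m B : ℕ} {H : Subgroup G} (hH : IsOpen (H : Set G)) (hm : m ∣ H.index)
    (hB : H.index ≤ B) : pc H ∈ PB 𝒰 m B :=
  AddSubgroup.subset_closure (Or.inl ⟨H, hH, hm, hB, rfl⟩)

theorem zero_mem_PB {m B : ℕ} {f : Subgroup G → ℤ} (hf : ∀ U ∈ 𝒰, f U = 0) :
    f ∈ PB 𝒰 m B := AddSubgroup.subset_closure (Or.inr hf)

/-- functions equal on `𝒰` -/
theorem PB_congr {m B : ℕ} {f g : Subgroup G → ℤ} (hf : ∀ U ∈ 𝒰, f U = g U)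
    (hg : g ∈ PB 𝒰 m B) : f ∈ PB 𝒰 m B := by
  have : f = g + (f - g) := by abel
  rw [this]
  refine AddSubgroup.add_mem _ hg (zero_mem_PB fun U hU => ?_)
  rw [Pi.sub_apply, hf U hU, sub_self]

theorem PB_mono {m m' B B' : ℕ} (h : m ∣ m') (hB : B' ≤ B) : PB 𝒰 m' B' ≤ PB 𝒰 m B := by
  unfold PB
  rw [AddSubgroup.closure_le]
  rintro f (⟨H, hH, hm, hB', rfl⟩ | hf)
  · exact pc_mem_PB hH (h.trans hm) (hB'.trans hB)
  · exact zero_mem_PB hf

theorem pch_mem_PB {m B : ℕ} (X : Type) [MulAction G X] [Finite X]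
    (h : ∀ x : X, IsOpen (stabilizer G x : Set G) ∧ m ∣ (stabilizer G x).index ∧
      (stabilizer G x).index ≤ B) : pch G X ∈ PB 𝒰 m B :=
  mem_of_orbits' X _ fun x => pc_mem_PB (h x).1 (h x).2.1 (h x).2.2

theorem ind_mem_PB {H : Subgroup G} [Fintype (G ⧸ H)] (hH : IsOpen (H : Set G)) {m B : ℕ}
    {𝒰 : Set (Subgroup G)} (hc : ∀ U ∈ 𝒰, ∀ a : G, cj a U ∈ 𝒰)
    {f : Subgroup H → ℤ} (hf : f ∈ PB (res H 𝒰) m B)
    (hfin : ∀ K : Subgroup H, IsOpen (K : Set H) → Finite (H ⧸ K)) :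
    ind H f ∈ PB 𝒰 (m * H.index) (B * H.index) := by
  unfold PB at hf
  induction hf using AddSubgroup.closure_induction with
  | mem f hf =>
    rcases hf with ⟨K, hK, hm, hB, rfl⟩ | hf
    · have := hfin K hK
      rw [ind_pc]
      refine pc_mem_PB ?_ ?_ ?_
      · have : ((K.map H.subtype : Subgroup G) : Set G) = Subtype.val '' (K : Set H) := by
          ext x
          simp
        rw [this]
        exact hH.isOpenMap_subtype_val _ hK
      · rw [Subgroup.index_map_subtype]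
        exact Nat.mul_dvd_mul_right hm _
      · rw [Subgroup.index_map_subtype]
        exact Nat.mul_le_mul_right _ hB
    · refine zero_mem_PB fun U hU => ?_
      change (∑ x : G ⧸ H, _) = (0 : ℤ)
      refine Finset.sum_eq_zero fun x _ => ?_
      split_ifs with h
      · apply hf
        change ((cj x.out U).subgroupOf H).map H.subtype ∈ 𝒰
        rw [Subgroup.subgroupOf_map_subtype, inf_eq_left.2 h]
        exact hc U hU _
      · rfl
  | zero => rw [map_zero]; exact AddSubgroup.zero_mem _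
  | add f f' _ _ h h' => rw [map_add]; exact AddSubgroup.add_mem _ h h'
  | neg f _ h => rw [map_neg]; exact AddSubgroup.neg_mem _ h

end basic

variable {G : Type} [Group G] [TopologicalSpace G] [IsTopologicalGroup G] {𝒰 : Set (Subgroup G)}

theorem nice_indB (hG : Nice G 𝒰) {H : Subgroup G} [Fintype (G ⧸ H)]
    (hH : IsOpen (H : Set G)) {m B : ℕ} {f : Subgroup H → ℤ} (hf : f ∈ PB (res H 𝒰) m B) :
    ind H f ∈ PB 𝒰 (m * H.index) (B * H.index) :=
  ind_mem_PB hH hG.conj hf fun _ hK => (hG.sub hH).fin hK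

/-- the form in which induction is used: `K ≤ H ≤ G` -/
theorem nice_stepB (hG : Nice G 𝒰) {H K : Subgroup G} (hH : IsOpen (H : Set G))
    (hK : IsOpen (K : Set G)) (hKH : K ≤ H) {m B : ℕ} {a : ℤ}
    (h : pc (K.subgroupOf H) - a • (1 : Subgroup H → ℤ) ∈ PB (res H 𝒰) m B) :
    pc K - a • pc H ∈ PB 𝒰 (m * H.index) (B * H.index) := by
  classical
  have := hG.fin hH
  have : Fintype (G ⧸ H) := Fintype.ofFinite _
  have := (hG.sub hH).fin (open_comap hK H)
  have h1 := nice_indB hG hH h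
  rw [map_sub, map_zsmul, ind_pc, ind_one, Subgroup.subgroupOf_map_subtype,
    inf_eq_left.2 hKH] at h1
  exact h1

private theorem smulB_aux {m : ℕ}
    (ih : ∀ (G : Type) [Group G] [TopologicalSpace G] [IsTopologicalGroup G]
      (𝒰 : Set (Subgroup G)), Nice G 𝒰 → (m : ℤ) • (1 : Subgroup G → ℤ) ∈ PB 𝒰 m (m ^ 2))
    (hG : Nice G 𝒰) {J : Subgroup G}
    (hJ : IsOpen (J : Set G)) : (m : ℤ) • pc J ∈ PB 𝒰 (m * J.index) (m ^ 2 * J.index) := by
  classical
  haveI := hG.fin hJ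
  haveI : Fintype (G ⧸ J) := Fintype.ofFinite _
  have h1 := nice_indB hG hJ (ih J _ (hG.sub hJ))
  rw [map_zsmul, ind_one] at h1
  exact h1

private theorem smulB_one (m : ℕ) : ∀ (G : Type) [Group G] [TopologicalSpace G]
    [IsTopologicalGroup G] (𝒰 : Set (Subgroup G)), Nice G 𝒰 →
    (m : ℤ) • (1 : Subgroup G → ℤ) ∈ PB 𝒰 m (m ^ 2) := by
  induction m using Nat.strong_induction_on with
  | _ m ih =>
    intro G _ _ _ 𝒰 hG
    rcases Nat.eq_zero_or_pos m with rfl | hm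
    · rw [Nat.cast_zero, zero_smul]
      exact AddSubgroup.zero_mem _
    rcases eq_or_ne m 1 with rfl | hm1
    · rw [Nat.cast_one, one_smul, ← pc_top]
      exact pc_mem_PB isOpen_univ (by simp) (by simp)
    obtain ⟨p, hp, k, hk⟩ : ∃ p : ℕ, p.Prime ∧ ∃ k, m = p * k :=
      ⟨m.minFac, Nat.minFac_prime hm1, m.minFac_dvd⟩
    haveI : Fact p.Prime := ⟨hp⟩
    have hkm : k < m := by
      have hk0 : 0 < k := by
        rcases Nat.eq_zero_or_pos k with h | h
        · rw [h, mul_zero] at hk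
          omega
        · exact h
      rw [hk]
      have := hp.two_le
      nlinarith
    obtain ⟨l1, h1o, ⟨n1, -, hn1⟩, -⟩ := exists_char p hG (N := ⊤) isOpen_univ
    obtain ⟨l2, h2o, ⟨n2, hn2, hn2'⟩, h2U⟩ := exists_char p hG (N := l1.ker) h1o
    have key : ∀ J : Subgroup G, IsOpen (J : Set G) → p ∣ J.index → J.index ≤ p ^ 2 →
        (k : ℤ) • pc J ∈ PB 𝒰 m (m ^ 2) := by
      intro J hJ hpJ hJB
      refine PB_mono ?_ ?_ (smulB_aux (ih k hkm) hG hJ)
      · rw [hk, mul_comm p k]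
        exact Nat.mul_dvd_mul_left k hpJ
      · rw [hk, mul_pow, mul_comm (p ^ 2)]
        exact Nat.mul_le_mul_left _ hJB
    have hp1 : p ≤ p ^ 2 := by
      have := hp.two_le
      nlinarith
    have hrel := relA l1 l2 ⟨n1, hn1⟩ ⟨n2, hn2, hn2'⟩
    have hinf : IsOpen ((l1.ker ⊓ l2.ker : Subgroup G) : Set G) := by
      rw [Subgroup.coe_inf]
      exact h1o.inter h2o
    have e1 : ∀ U ∈ 𝒰, ((m : ℤ) • (1 : Subgroup G → ℤ)) U = ((k : ℤ) • pc l1.ker +
        ∑ c : ZMod p, (k : ℤ) • pc ((l2 * l1 ^ c.val).ker) -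
        (k : ℤ) • pc (l1.ker ⊓ l2.ker)) U := by
      intro U hU
      have h8 := hrel U (h2U U hU)
      rw [← Finset.smul_sum, ← smul_add, Pi.sub_apply, Pi.smul_apply, Pi.smul_apply,
        Pi.smul_apply, ← h8, Pi.add_apply, smul_add, add_sub_cancel_right, Pi.smul_apply,
        smul_smul, hk]
      push_cast
      rw [mul_comm]
    refine PB_congr e1 ?_
    refine AddSubgroup.sub_mem _ (AddSubgroup.add_mem _ ?_ (AddSubgroup.sum_mem _ ?_)) ?_
    · exact key _ h1o (ker_index l1 ⟨n1, hn1⟩).symm.dvd (by rw [ker_index l1 ⟨n1, hn1⟩]; exact hp1)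
    · intro c _
      have hidx : ((l2 * l1 ^ c.val).ker).index = p := by
        refine ker_index _ ⟨n2, ?_⟩
        rw [MonoidHom.mul_apply, MonoidHom.pow_apply, MonoidHom.mem_ker.1 hn2, one_pow, mul_one]
        exact hn2'
      refine key _ (Subgroup.isOpen_mono ?_ hinf) hidx.symm.dvd (by rw [hidx]; exact hp1)
      rintro x ⟨hx1, hx2⟩
      rw [MonoidHom.mem_ker, MonoidHom.mul_apply, MonoidHom.pow_apply,
        MonoidHom.mem_ker.1 hx1, MonoidHom.mem_ker.1 hx2, one_pow, mul_one]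
    · refine key _ hinf ?_ ?_
      · rw [inf_index l1 l2 ⟨n1, hn1⟩ ⟨n2, hn2, hn2'⟩]
        exact dvd_pow_self p two_ne_zero
      · rw [inf_index l1 l2 ⟨n1, hn1⟩ ⟨n2, hn2, hn2'⟩]

theorem smul_one_memB (hG : Nice G 𝒰) (m : ℕ) :
    (m : ℤ) • (1 : Subgroup G → ℤ) ∈ PB 𝒰 m (m ^ 2) := smulB_one m G 𝒰 hG

theorem smul_pc_memB (hG : Nice G 𝒰) {J : Subgroup G} (hJ : IsOpen (J : Set G)) (m : ℕ) :
    (m : ℤ) • pc J ∈ PB 𝒰 (m * J.index) (m ^ 2 * J.index) :=
  smulB_aux (fun G _ _ _ 𝒰 h => smulB_one m G 𝒰 h) hG hJ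

/-- multiplication by `k` raises the level -/
theorem p_smul_PB (hG : Nice G 𝒰) (m k : ℕ) {B : ℕ} {f : Subgroup G → ℤ} (hf : f ∈ PB 𝒰 m B) :
    (k : ℤ) • f ∈ PB 𝒰 (k * m) (k ^ 2 * B) := by
  unfold PB at hf
  induction hf using AddSubgroup.closure_induction with
  | mem f hf =>
    rcases hf with ⟨H, hH, hm, hB, rfl⟩ | hf
    · exact PB_mono (Nat.mul_dvd_mul_left k hm) (Nat.mul_le_mul_left _ hB) (smul_pc_memB hG hH k)
    · exact zero_mem_PB fun U hU => by rw [Pi.smul_apply, hf U hU, smul_zero]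
  | zero => rw [smul_zero]; exact AddSubgroup.zero_mem _
  | add f f' _ _ h h' => rw [smul_add]; exact AddSubgroup.add_mem _ h h'
  | neg f _ h => rw [smul_neg]; exact AddSubgroup.neg_mem _ h

end Pool.Agent.TS
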