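import Pool.Agent.TS.M.G3
import Pool.Agent.TS.B.Alg

/-!
# TS/B-Fin: the bounded theorem

Fields of degree `2 ^ (m - i) * n`, by induction on `i`: `i = 0` and all fields of degree divisible by
`2 ^ m * n`, at most `mx`: `g1x`.  Step: `descent` with the relation `alg_marksB`.
-/

namespace Pool.Agent.TS

open NumberField IsDedekindDomain Pool.Agent.HWR Pool.Agent.QD Pool.Agent.H73.AL Pool.Agent.LD

theorem bM_mono {n n' : ℕ} (h : n ≤ n') : bM n ≤ bM n' :=
  Nat.factorial_le (Nat.pow_le_pow_left h 2)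

theorem bC_mono {n n' : ℕ} (h : n ≤ n') : bC n ≤ bC n' :=
  Nat.mul_le_mul_left 4 (Nat.mul_le_mul (bM_mono h)
    (Nat.pow_le_pow_right (by norm_num) (bM_mono h)))

theorem le_bC (n : ℕ) : n ≤ bC n := by
  rcases Nat.eq_zero_or_pos n with rfl | hn
  · exact Nat.zero_le _
  have h1 : n ≤ bM n := by
    unfold bM
    have h2 : n ≤ n ^ 2 := by nlinarith
    exact h2.trans (Nat.self_le_factorial _)
  have h3 : 1 ≤ 2 ^ bM n := Nat.one_le_two_pow
  unfold bC
  nlinarith

/-- `u_main`: the Hasse-Weil conjecture over all fields of degree `n` from fields of bounded degree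
divisible by `2 ^ m * n` which are totally real or have even local degrees above `V` -/
theorem u_main : ∃ Bd : ℕ → ℕ → ℕ, ∀ {T : Finset ℕ} (_ : ∀ p ∈ T, p.Prime)
    (_ : ∀ p : ℕ, p.Prime → p < 101 → p ∈ T) (D : LocData T) (a : ℕ → ℝ)
    (_ : ∀ q : ℕ, |a q| ≤ 2 * Real.sqrt q) (_ : FrobRel T a) (V : Finset ℕ) (L : List NF)
    (n m : ℕ) (_ : D.HW a ℚ)
    (_ : ∀ F : NF, InfinitePlace.nrComplexPlaces F.F = 0 → 2 ^ m * n ∣ Module.finrank ℚ F.F →
      Module.finrank ℚ F.F ≤ Bd n m → D.HW a F.F)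
    (_ : ∀ F : NF, 2 ^ m * n ∣ Module.finrank ℚ F.F → Module.finrank ℚ F.F ≤ Bd n m →
      EvV V T F.F → (∀ X ∈ L, ¬ Nonempty (X.F ≃+* F.F)) → D.HW a F.F) (K : NF)
    (_ : Module.finrank ℚ K.F = n), D.HW a K.F := by
  classical
  have hex : ∀ M : ℕ, ∃ c : ℕ → ℕ, M ≠ 0 → ∀ (T : Finset ℕ) (K : NF),
    ∃ A B : List NF, (∀ F ∈ A ++ B, Module.finrank ℚ F.F = 1 ∨
      (M ∣ Module.finrank ℚ F.F ∧ Module.finrank ℚ F.F ≤ c (Module.finrank ℚ K.F))) ∧
      Rel T (K :: A) B := by
    intro M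
    by_cases hM : M = 0
    · exact ⟨fun _ => 0, fun h => absurd hM h⟩
    · obtain ⟨c, hc⟩ := alg_marksB M hM
      exact ⟨c, fun _ => hc⟩
  choose c hc using hex
  refine ⟨fun n m => bC ((∑ i ∈ Finset.range (m + 1), c (2 ^ m * n) (2 ^ i * n)) + 2 ^ m * n), ?_⟩
  intro T hTp hT D a ha hfr V L n m hQ hR hE K hK
  obtain ⟨mx, hmx⟩ : ∃ mx, mx = (∑ i ∈ Finset.range (m + 1), c (2 ^ m * n) (2 ^ i * n)) +
    2 ^ m * n := ⟨_, rfl⟩
  have hn : 0 < n := by
    rw [← hK]
    exact Module.finrank_pos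
  -- the fields of degree divisible by `2 ^ m * n`
  have top : ∀ X : NF, 2 ^ m * n ∣ Module.finrank ℚ X.F → Module.finrank ℚ X.F ≤ mx →
      D.HW a X.F := by
    intro X hX hXm
    refine g1x hTp hT D a ha hfr V L (Module.finrank ℚ X.F) (fun F hF0 hFn => ?_)
      (fun F hF1 hF2 hF3 hF4 => ?_) X rfl
    · refine hR F hF0 (by rw [hFn]; exact hX) ?_
      rw [hFn]
      change Module.finrank ℚ X.F ≤ bC _
      rw [← hmx]
      exact hXm.trans (le_bC mx)
    · refine hE F (hX.trans hF1) ?_ hF3 hF4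
      change Module.finrank ℚ F.F ≤ bC _
      rw [← hmx]
      exact hF2.trans (bC_mono hXm)
  -- descending
  have chain : ∀ i : ℕ, i ≤ m → ∀ X : NF, Module.finrank ℚ X.F = 2 ^ (m - i) * n →
      D.HW a X.F := by
    intro i
    induction i with
    | zero =>
      intro _ X hX
      rw [Nat.sub_zero] at hX
      exact top X (by rw [hX]) (by rw [hX, hmx]; exact Nat.le_add_left _ _)
    | succ i ih =>
      intro hi X hX
      obtain ⟨A, B, hAB, hrel⟩ := hc (2 ^ m * n) (mul_ne_zero (pow_ne_zero _ two_ne_zero) hn.ne')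
        T X
      have hm : ∀ F ∈ A ++ B, D.HW a F.F := by
        intro F hF
        rcases hAB F hF with h1 | ⟨h1, h2⟩
        · exact HW_one D hTp hT ha hQ F.F h1
        · refine top F h1 (h2.trans ?_)
          rw [hX, hmx]
          refine le_trans ?_ (Nat.le_add_right _ _)
          exact Finset.single_le_sum (f := fun i => c (2 ^ m * n) (2 ^ i * n))
            (fun _ _ => Nat.zero_le _) (Finset.mem_range.2 (by omega))
      refine descent X.F T hTp hT D a ha (sqRel_of_frob X.F T a hfr) ?_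
        (MER_of_rel D hTp hT ha X hrel
          (fun F hF => hm F (List.mem_append.2 (Or.inl hF)))
          (fun F hF => hm F (List.mem_append.2 (Or.inr hF))))
      intro K' _ _ _ hK'
      refine ih (by omega) ⟨K'⟩ ?_
      have h1 : Module.finrank ℚ X.F * Module.finrank X.F K' = Module.finrank ℚ K' :=
        Module.finrank_mul_finrank ℚ X.F K'
      change Module.finrank ℚ K' = 2 ^ (m - i) * n
      rw [← h1, hK', hX]
      have h2 : m - i = m - (i + 1) + 1 := by omega
      rw [h2, pow_succ]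
      ring
  have h3 := chain m le_rfl K (by rw [Nat.sub_self, pow_zero, one_mul]; exact hK)
  exact h3

end Pool.Agent.TS
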