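import Pool.Agent.TS.B.Nrm

/-!
# TS/B-Main: the main theorem for Nice groups, with bounds

As H73/DU/EStep.
-/

namespace Pool.Agent.TS

open MulAction Pool.Agent.H73.DU

section primes

variable (p : ℕ) [Fact p.Prime]

theorem step_memB (k : ℕ) : ∃ b : ℕ → ℕ, ∀ (G : Type) [Group G] [TopologicalSpace G]
    [IsTopologicalGroup G] (𝒰 : Set (Subgroup G)), Nice G 𝒰 → ∀ (i : ℕ) (H : Subgroup G),
      IsOpen (H : Set G) → H.index ≤ i → p ^ k ∣ H.index →
      pc H - (H.index : ℤ) • (1 : Subgroup G → ℤ) ∈ PB 𝒰 (p ^ (k + 1)) (b i) := by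
  have hpr : p.Prime := Fact.out
  have hp0 : 0 < p := hpr.pos
  induction k with
  | zero =>
    refine ⟨fun i => i + i ^ 2 + i * bS p i.factorial, ?_⟩
    intro G _ _ _ 𝒰 hG i H hH hi _
    rw [zero_add, pow_one]
    by_cases hp : p ∣ H.index
    · refine AddSubgroup.sub_mem _ (pc_mem_PB hH hp ?_) ?_
      · change H.index ≤ i + i ^ 2 + i * bS p i.factorial
        omega
      · refine PB_mono hp ?_ (smul_one_memB hG _)
        have := Nat.pow_le_pow_left hi 2
        change H.index ^ 2 ≤ i + i ^ 2 + i * bS p i.factorial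
        omega
    · refine PB_mono (dvd_refl p) ?_ (prime_to_memB hG hH hp)
      have := Nat.mul_le_mul hi (bS_mono hp0 (Nat.factorial_le hi))
      change H.index * bS p H.index.factorial ≤ i + i ^ 2 + i * bS p i.factorial
      omega
  | succ k ih =>
    obtain ⟨b, ih⟩ := ih
    refine ⟨fun i => (i.factorial * bS p i.factorial.factorial) * i + p ^ 3 * i.factorial +
      p ^ 2 * b i.factorial + p ^ 2 * (i ^ 2 + i), ?_⟩
    intro G _ _ _ 𝒰 hG i H hH hi hk
    obtain ⟨Bd, hBd⟩ : ∃ Bd, Bd = (i.factorial * bS p i.factorial.factorial) * i +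
      p ^ 3 * i.factorial + p ^ 2 * b i.factorial + p ^ 2 * (i ^ 2 + i) := ⟨_, rfl⟩
    change pc H - (H.index : ℤ) • (1 : Subgroup G → ℤ) ∈ PB 𝒰 (p ^ (k + 1 + 1))
      ((i.factorial * bS p i.factorial.factorial) * i +
      p ^ 3 * i.factorial + p ^ 2 * b i.factorial + p ^ 2 * (i ^ 2 + i))
    rw [← hBd]
    have hsq : i ^ 2 + i ≤ Bd := by
      have : i ^ 2 + i ≤ p ^ 2 * (i ^ 2 + i) := Nat.le_mul_of_pos_left _ (by positivity)
      omega
    have hiB : i ≤ Bd := by omega
    have hHs : H.index ^ 2 ≤ i ^ 2 := Nat.pow_le_pow_left hi 2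
    by_cases hk2 : p ^ (k + 1 + 1) ∣ H.index
    · refine AddSubgroup.sub_mem _ (pc_mem_PB hH hk2 (hi.trans hiB)) ?_
      exact PB_mono hk2 (by omega) (smul_one_memB hG _)
    set N := H.normalCore with hN
    have hNo : IsOpen (N : Set G) := hG.core hH
    haveI hNn : N.Normal := Subgroup.normalCore_normal H
    haveI hNf := hG.finiteIndex hNo
    haveI hHf := hG.finiteIndex hH
    have hNi : N.index ≤ i.factorial := (core_index H).trans (Nat.factorial_le hi)
    have hNH : N ≤ H := Subgroup.normalCore_le H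
    obtain ⟨T, hT, hTH, hTp⟩ := exists_syl p N H hNH
    have hTo : IsOpen (T : Set G) := Subgroup.isOpen_mono hT.1 hNo
    have hTi : T.relIndex H * H.index = T.index := Subgroup.relIndex_mul_index hTH
    have hH0 : 0 < H.index := Nat.pos_of_ne_zero hHf.index_ne_zero
    have hTle : T.index ≤ i.factorial :=
      (Nat.le_of_dvd (Nat.pos_of_ne_zero hNf.index_ne_zero)
        (Subgroup.index_dvd_of_le hT.1)).trans hNi
    have hrle : T.relIndex H ≤ i.factorial := by
      refine le_trans ?_ hTle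
      rw [← hTi]
      exact Nat.le_mul_of_pos_right _ hH0
    -- from `H` to `T`
    have h1 := prime_to_memB (hG.sub hH) (open_comap hTo H) hTp
    have h2 := nice_stepB hG hH hTo hTH h1
    have h3 : pc T - ((T.relIndex H : ℕ) : ℤ) • pc H ∈ PB 𝒰 (p ^ (k + 1 + 1)) Bd :=
      PB_mono (by rw [pow_succ' p (k + 1)]; exact Nat.mul_dvd_mul_left p hk) (by
        have h4 : T.relIndex H * bS p (T.relIndex H).factorial * H.index ≤
            i.factorial * bS p i.factorial.factorial * i :=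
          Nat.mul_le_mul (Nat.mul_le_mul hrle (bS_mono hp0 (Nat.factorial_le hrle))) hi
        have h5 : (T.subgroupOf H).index * bS p (T.subgroupOf H).index.factorial * H.index =
            T.relIndex H * bS p (T.relIndex H).factorial * H.index := rfl
        rw [h5]
        omega) h2
    -- from `T` to `T'`
    have hpT : p ∣ T.index := by
      rw [← hTi]
      exact Dvd.dvd.mul_left ((dvd_pow_self p (Nat.succ_ne_zero k)).trans hk) _
    obtain ⟨T', hT', hTT', hTT'i, hTT'n⟩ := exists_over N T hT hpT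
    have hT'o : IsOpen (T' : Set G) := Subgroup.isOpen_mono hT'.1 hNo
    have hT'i : p * T'.index = T.index := by
      rw [← hTT'i]
      exact Subgroup.relIndex_mul_index hTT'
    have hT'le : T'.index ≤ i.factorial := by
      refine le_trans ?_ hTle
      rw [← hT'i]
      exact Nat.le_mul_of_pos_left _ hp0
    have hk' : p ^ k ∣ T'.index := by
      have h4 : p ^ (k + 1) ∣ p * T'.index := by
        rw [hT'i, ← hTi]
        exact Dvd.dvd.mul_left hk _
      rw [pow_succ'] at h4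
      exact Nat.dvd_of_mul_dvd_mul_left hpr.pos h4
    have h5 := normal_memB (hG.sub hT'o) (open_comap hTo T') hTT'n hTT'i
    have h6 := nice_stepB hG hT'o hTo hTT' h5
    have h7 : pc T - (p : ℤ) • pc T' ∈ PB 𝒰 (p ^ (k + 1 + 1)) Bd :=
      PB_mono (by
        rw [show p ^ (k + 1 + 1) = p ^ 2 * p ^ k by ring]
        exact Nat.mul_dvd_mul_left _ hk') (by
        have := Nat.mul_le_mul_left (p ^ 3) hT'le
        omega) h6
    have h8 := ih G 𝒰 hG i.factorial T' hT'o hT'le hk'
    have h9 := PB_mono (𝒰 := 𝒰) (dvd_refl _) (by omega : p ^ 2 * b i.factorial ≤ Bd)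
      (p_smul_PB hG _ p h8)
    rw [← pow_succ', smul_sub, smul_smul, ← Nat.cast_mul, hT'i] at h9
    -- conclusion
    have h10 : ((T.relIndex H : ℕ) : ℤ) • (pc H - (H.index : ℤ) • (1 : Subgroup G → ℤ)) ∈
        PB 𝒰 (p ^ (k + 1 + 1)) Bd := by
      have : ((T.relIndex H : ℕ) : ℤ) • (pc H - (H.index : ℤ) • (1 : Subgroup G → ℤ)) =
          (pc T - (p : ℤ) • pc T') + ((p : ℤ) • pc T' - (T.index : ℤ) • (1 : Subgroup G → ℤ)) -
            (pc T - ((T.relIndex H : ℕ) : ℤ) • pc H) := by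
        rw [smul_sub, smul_smul, ← Nat.cast_mul, hTi]
        abel
      rw [this]
      exact AddSubgroup.sub_mem _ (AddSubgroup.add_mem _ h7 h9) h3
    have h11 : ((p : ℕ) : ℤ) • (pc H - (H.index : ℤ) • (1 : Subgroup G → ℤ)) ∈
        PB 𝒰 (p ^ (k + 1 + 1)) Bd := by
      have h12 : pc H - (H.index : ℤ) • (1 : Subgroup G → ℤ) ∈
          PB 𝒰 (p ^ (k + 1)) (i ^ 2 + i) :=
        AddSubgroup.sub_mem _ (pc_mem_PB hH hk (by omega))
          (PB_mono hk (by omega) (smul_one_memB hG _))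
      have := p_smul_PB hG _ p h12
      rw [← pow_succ'] at this
      exact PB_mono (dvd_refl _) (by omega) this
    exact mem_of_coprime ((Nat.Prime.coprime_iff_not_dvd hpr).2 hTp).symm h10 h11

theorem ppow_memB (k : ℕ) : ∃ c : ℕ → ℕ, ∀ (G : Type) [Group G] [TopologicalSpace G]
    [IsTopologicalGroup G] (𝒰 : Set (Subgroup G)), Nice G 𝒰 → ∀ (i : ℕ) (H : Subgroup G),
      IsOpen (H : Set G) → H.index ≤ i →
      pc H - (H.index : ℤ) • (1 : Subgroup G → ℤ) ∈ PB 𝒰 (p ^ k) (c i) := by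
  induction k with
  | zero =>
    refine ⟨fun i => i + 1, ?_⟩
    intro G _ _ _ 𝒰 hG i H hH hi
    rw [pow_zero]
    refine AddSubgroup.sub_mem _ (pc_mem_PB hH (one_dvd _) (hi.trans (Nat.le_succ i)))
      (AddSubgroup.zsmul_mem _ ?_ _)
    rw [← pc_top]
    refine pc_mem_PB isOpen_univ (one_dvd _) ?_
    rw [Subgroup.index_top]
    exact Nat.le_add_left 1 i
  | succ k ih =>
    obtain ⟨c, hc⟩ := ih
    obtain ⟨b, hb⟩ := step_memB p k
    refine ⟨fun i => b (c i), ?_⟩
    intro G _ _ _ 𝒰 hG i H hH hi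
    have level_up : ∀ f : Subgroup G → ℤ, f ∈ PB 𝒰 (p ^ k) (c i) →
        f - (f ⊥) • (1 : Subgroup G → ℤ) ∈ PB 𝒰 (p ^ (k + 1)) (b (c i)) := by
      intro f hf
      unfold PB at hf
      induction hf using AddSubgroup.closure_induction with
      | mem f hf =>
        rcases hf with ⟨H, hH, hm, hB, rfl⟩ | hf
        · rw [pc_bot]
          exact hb G 𝒰 hG (c i) H hH hB hm
        · rw [hf ⊥ hG.bot, zero_smul, sub_zero]
          exact zero_mem_PB hf
      | zero =>
        rw [Pi.zero_apply, zero_smul, sub_zero]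
        exact AddSubgroup.zero_mem _
      | add f f' _ _ h h' =>
        have : f + f' - ((f + f') ⊥) • (1 : Subgroup G → ℤ) =
            (f - (f ⊥) • (1 : Subgroup G → ℤ)) + (f' - (f' ⊥) • (1 : Subgroup G → ℤ)) := by
          rw [Pi.add_apply, add_smul]; abel
        rw [this]
        exact AddSubgroup.add_mem _ h h'
      | neg f _ h =>
        have : -f - ((-f) ⊥) • (1 : Subgroup G → ℤ) = -(f - (f ⊥) • (1 : Subgroup G → ℤ)) := by
          rw [Pi.neg_apply, neg_smul]; abel
        rw [this]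
        exact AddSubgroup.neg_mem _ h
    have h := level_up _ (hc G 𝒰 hG i H hH hi)
    have h1 : (pc H - (H.index : ℤ) • (1 : Subgroup G → ℤ)) ⊥ = 0 := by
      rw [Pi.sub_apply, pc_bot]
      simp
    rwa [h1, zero_smul, sub_zero] at h

end primes

/-- the main theorem, with bounds -/
theorem mainB (m : ℕ) (hm : m ≠ 0) : ∃ c : ℕ → ℕ, ∀ (G : Type) [Group G] [TopologicalSpace G]
    [IsTopologicalGroup G] (𝒰 : Set (Subgroup G)), Nice G 𝒰 → ∀ (i : ℕ) (H : Subgroup G),
      IsOpen (H : Set G) → H.index ≤ i →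
      pc H - (H.index : ℤ) • (1 : Subgroup G → ℤ) ∈ PB 𝒰 m (c i) := by
  induction m using Nat.recOnPosPrimePosCoprime with
  | prime_pow q n hq hn =>
    haveI : Fact q.Prime := ⟨hq⟩
    exact ppow_memB q n
  | zero => exact absurd rfl hm
  | one =>
    haveI : Fact (Nat.Prime 2) := ⟨Nat.prime_two⟩
    have := ppow_memB 2 0
    rwa [pow_zero] at this
  | coprime a b ha hb hab iha ihb =>
    obtain ⟨c1, h1⟩ := iha (by omega)
    obtain ⟨c2, h2⟩ := ihb (by omega)
    refine ⟨fun i => b ^ 2 * c1 i + a ^ 2 * c2 i, ?_⟩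
    intro G _ _ _ 𝒰 hG i H hH hi
    have e1 := PB_mono (𝒰 := 𝒰) (dvd_refl _)
      (Nat.le_add_right (b ^ 2 * c1 i) (a ^ 2 * c2 i)) (p_smul_PB hG a b (h1 G 𝒰 hG i H hH hi))
    have e2 := PB_mono (𝒰 := 𝒰) (dvd_refl _)
      (Nat.le_add_left (a ^ 2 * c2 i) (b ^ 2 * c1 i)) (p_smul_PB hG b a (h2 G 𝒰 hG i H hH hi))
    rw [mul_comm b a] at e1
    exact mem_of_coprime hab e2 e1

end Pool.Agent.TS
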