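import Pool.Agent.TS.B.Syl

/-!
# TS/B-Nrm: normal subgroups of index `p`: `pc J ≡ p` modulo `P (p ^ 2)`, with bounds

As H73/DU/DStep.
-/

namespace Pool.Agent.TS

open MulAction Pool.Agent.H73.DU

variable {p : ℕ} [Fact p.Prime]

theorem D1B {G : Type} [Group G] [TopologicalSpace G] [IsTopologicalGroup G]
    {𝒰 : Set (Subgroup G)} (hG : Nice G 𝒰)
    {N : Subgroup G} (hN : IsOpen (N : Set G)) [N.Normal]
    {θ : G → ZMod p} (hθ : ∀ a ∈ N, ∀ b ∈ N, θ (a * b) = θ a + θ b)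
    (hU : ∃ U : Subgroup G, IsOpen (U : Set G) ∧ U ≤ N ∧ ∀ u ∈ U, θ u = 0)
    (h𝒰 : ∀ U ∈ 𝒰, Cyc U ∨ ∀ a : G, ∀ u ∈ cj a U, u ∈ N → θ u = 0)
    (hind : ∀ (ι : Type) [Fintype ι] (f : ι → G) (c : ι → ZMod p),
      (∀ i j, (f i)⁻¹ * f j ∈ N → i = j) →
      (∀ n ∈ N, ∑ i, c i * θ ((f i)⁻¹ * n * f i) = 0) → c = 0) :
    ∃ K : Subgroup G, ∀ l : G →* Multiplicative (ZMod p), (∃ g, l g ≠ 1) → N ≤ l.ker →
      pc l.ker - pc K ∈ PB 𝒰 (p ^ 2) (p ^ 3) := by
  classical
  have hp0 : 0 < p := (Fact.out : p.Prime).pos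
  have := hG.fin hN
  haveI : Fintype (G ⧸ N) := Fintype.ofFinite _
  obtain ⟨D0, hD0⟩ := exists_cdata hG hN hθ hU hind
  -- the trivial module
  let j0 : ZMod p →ₗ[ZMod p] (G ⧸ N → ZMod p) :=
    { toFun := fun m _ => m
      map_add' := fun _ _ => rfl
      map_smul' := fun _ _ => rfl }
  obtain ⟨D, hρ, hgood, hz, -, hsurj⟩ := hD0 (ZMod p) 1 j0 (fun a b hab =>
    congrFun hab ((1 : G) : G ⧸ N)) (fun g m x => rfl)
  have hadd : ∀ g h, D.z (g * h) 1 = D.z g 1 + D.z h 1 := by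
    intro g h
    rw [D.coc, hρ]
    rfl
  let ν : G →* Multiplicative (ZMod p) :=
    { toFun := fun g => Multiplicative.ofAdd (D.z g 1)
      map_one' := by rw [D.z_one]; rfl
      map_mul' := fun g h => by rw [hadd]; rfl }
  have hν : ∀ g, g ∈ ν.ker ↔ D.z g 1 = 0 := fun g => Iff.rfl
  have hνne : ∃ g, ν g ≠ 1 := by
    obtain ⟨n, -, hn⟩ := hsurj LinearMap.id
    refine ⟨n, fun h => ?_⟩
    have h1 : D.z n 1 = 0 := h
    rw [hn] at h1
    exact one_ne_zero h1
  have hνo : IsOpen (ν.ker : Set G) := by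
    obtain ⟨U, hUo, hU'⟩ := hgood.op
    refine Subgroup.isOpen_mono ?_ hUo
    intro u hu
    rw [hν, (hU' u hu).2]
    rfl
  have hνi : ν.ker.index = p := ker_index ν hνne
  have hp2 : ∀ l : G →* Multiplicative (ZMod p), (∃ g, l g ≠ 1) → IsOpen (l.ker : Set G) →
      (p : ℤ) • pc l.ker ∈ PB 𝒰 (p ^ 2) (p ^ 3) := by
    intro l hl hlo
    have := smul_pc_memB hG hlo p
    rwa [ker_index l hl, ← sq, ← pow_succ] at this
  refine ⟨ν.ker, ?_⟩
  intro l hl hNl
  have hlo : IsOpen (l.ker : Set G) := Subgroup.isOpen_mono hNl hN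
  obtain ⟨E, hEρ, hEgood, hEz, hEtr, -⟩ := hD0 (ZMod p × ZMod p) (uRep l) (uEmb l hNl)
    (uEmb_inj l hNl hl) (fun g m x => uEmb_equi l hNl g m x)
  have hEν : ∀ g (a : ZMod p), E.z g (a, 0) = a * D.z g 1 := by
    intro g a
    rw [hEz, hz, Finset.mul_sum]
    refine Finset.sum_congr rfl fun x _ => ?_
    have h1 : uEmb l hNl (a, 0) x = a := by
      induction x using QuotientGroup.induction_on with
      | H b =>
        rw [uEmb_apply]
        change a + 0 * _ = a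
        ring
    have h2 : j0 1 x = 1 := rfl
    rw [h1, h2, one_mul]
  have hM : pch G (MSet E) = (p : ℤ) • (1 : Subgroup G → ℤ) + ((p : ℤ) - 1) • pc l.ker := by
    funext U
    have h1 : pch G (MSet E) U =
        (Nat.card {x : ZMod p × ZMod p //
          ∀ u ∈ U, x.1 * (fun g => Multiplicative.toAdd (l g)) u = 0} : ℤ) := by
      unfold pch
      congr 1
      refine Nat.card_congr ⟨fun x => ⟨(x.1.m.2, x.1.m.1), ?_⟩, fun x => ⟨⟨(x.1.2, x.1.1)⟩, ?_⟩,
        fun _ => rfl, fun _ => rfl⟩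
      · intro u hu
        have h2 := x.2 u hu
        rw [MSet.smul_def, hEρ] at h2
        have h3 := congrArg (fun y : MSet E => y.m.1) h2
        change x.1.m.1 - x.1.m.2 * _ = x.1.m.1 at h3
        exact sub_eq_self.1 h3
      · intro u hu
        rw [MSet.smul_def, hEρ]
        apply MSet.ext
        refine Prod.ext ?_ rfl
        change x.1.2 - x.1.1 * _ = x.1.2
        have h4 : x.1.1 * Multiplicative.toAdd (l u) = 0 := x.2 u hu
        rw [h4, sub_zero]
    rw [h1, card_mul_zero U (fun g => Multiplicative.toAdd (l g)) (U ≤ l.ker) Iff.rfl]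
    simp only [Pi.add_apply, Pi.smul_apply, Pi.one_apply, smul_eq_mul, mul_one]
    rw [pc_normal, ker_index l hl]
  have hW : pch G (WSet E) - ((p : ℤ) • (1 : Subgroup G → ℤ) + ((p : ℤ) - 1) • pc ν.ker) ∈
      PB 𝒰 (p ^ 2) (p ^ 3) := by
    have h1 := pch_split_pred (G := G) (WSet E) (fun x => x.m.2 = 0) (by
      intro g x hx
      rw [WSet.smul_def, hEρ]
      exact hx) (PB 𝒰 (p ^ 2) (p ^ 3)) (by
      intro x hx
      have hx0 : x.m ≠ 0 := by
        intro h
        apply hx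
        rw [h]
        rfl
      have h2 : stabilizer G (⟨x.m⟩ : MSet E) = l.ker := by
        ext g
        rw [mem_stabilizer_iff, MSet.smul_def, hEρ]
        constructor
        · intro h
          have h3 := congrArg (fun y : MSet E => y.m.1) h
          change x.m.1 - x.m.2 * _ = x.m.1 at h3
          exact (mul_eq_zero.1 (sub_eq_self.1 h3)).resolve_left hx
        · intro h
          have h' : Multiplicative.toAdd (l g) = 0 := h
          apply MSet.ext
          refine Prod.ext ?_ rfl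
          change x.m.1 - x.m.2 * _ = x.m.1
          rw [h', mul_zero, sub_zero]
      have h2' : (stabilizer G x).index = p ^ 2 := by
        rw [(W_stab hEgood x hx0).2, h2, ker_index l hl, sq]
      exact pc_mem_PB (W_stab hEgood x hx0).1 h2'.symm.dvd (by
        rw [h2']
        exact Nat.pow_le_pow_right hp0 (by norm_num)))
    have h2 : (fun U : Subgroup G =>
        (Nat.card {x : WSet E // x.m.2 = 0 ∧ x ∈ fx (WSet E) U} : ℤ)) =
        (p : ℤ) • (1 : Subgroup G → ℤ) + ((p : ℤ) - 1) • pc ν.ker := by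
      funext U
      have e : {x : WSet E // x.m.2 = 0 ∧ x ∈ fx (WSet E) U} ≃
          {x : ZMod p × ZMod p // ∀ u ∈ U, x.1 * (fun g => D.z g 1) u = 0} :=
        ⟨fun x => ⟨(x.1.m.1, x.1.c), by
            intro u hu
            have hx := x.2.2 u hu
            have h0 : x.1.m = (x.1.m.1, 0) := Prod.ext rfl x.2.1
            rw [WSet.smul_def, hEρ, uRep_apply, x.2.1, zero_mul, sub_zero] at hx
            have h3 := congrArg WSet.c hx
            change x.1.c + E.z u (x.1.m.1, 0) = x.1.c at h3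
            rw [hEν] at h3
            exact add_eq_left.1 h3⟩,
          fun x => ⟨⟨(x.1.1, 0), x.1.2⟩, rfl, by
            intro u hu
            rw [WSet.smul_def, hEρ, uRep_apply]
            change (⟨(x.1.1 - 0 * _, 0), x.1.2 + E.z u (x.1.1 - 0 * _, 0)⟩ : WSet E) = _
            have h4 : x.1.1 * D.z u 1 = 0 := x.2 u hu
            rw [zero_mul, sub_zero, hEν, h4, add_zero]⟩,
          fun x => by
            apply Subtype.ext
            refine WSet.ext (Prod.ext rfl x.2.1.symm) rfl,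
          fun x => rfl⟩
      rw [Nat.card_congr e, card_mul_zero U (fun g => D.z g 1) (U ≤ ν.ker) Iff.rfl]
      simp only [Pi.add_apply, Pi.smul_apply, Pi.one_apply, smul_eq_mul, mul_one]
      rw [pc_normal, hνi]
    rwa [h2] at h1
  have hT : pch G (TSet E) ∈ PB 𝒰 (p ^ 2) (p ^ 3) :=
    pch_mem_PB _ fun x => ⟨(T_stab hEgood x).1, by
      rw [(T_stab hEgood x).2, Nat.card_prod, Nat.card_zmod, sq], by
      rw [(T_stab hEgood x).2, Nat.card_prod, Nat.card_zmod, ← sq]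
      exact Nat.pow_le_pow_right hp0 (by norm_num)⟩
  have h1 := relation_fam E (by rw [hEρ]; exact uRep_selfDual l) (𝒰 := 𝒰) (fun U hU' =>
    (h𝒰 U hU').imp_right (hEtr U))
  rw [hM] at h1
  have h2 : ∀ U ∈ 𝒰, (pc l.ker - pc ν.ker) U = (((p : ℤ) • pc l.ker - (p : ℤ) • pc ν.ker) -
      ((pch G (WSet E) - ((p : ℤ) • (1 : Subgroup G → ℤ) + ((p : ℤ) - 1) • pc ν.ker)) -
        ((p : ℤ) - 1) • pch G (TSet E))) U := by
    intro U hU'
    have := h1 U hU'
    simp only [Pi.add_apply, Pi.sub_apply, Pi.smul_apply, Pi.one_apply, smul_eq_mul] at this ⊢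
    rw [this]
    ring
  refine PB_congr h2 ?_
  exact AddSubgroup.sub_mem _ (AddSubgroup.sub_mem _ (hp2 l hl hlo) (hp2 ν hνne hνo))
    (AddSubgroup.sub_mem _ hW (AddSubgroup.zsmul_mem _ hT _))

/-- characters -/
theorem ker_memB {G : Type} [Group G] [TopologicalSpace G] [IsTopologicalGroup G]
    {𝒰 : Set (Subgroup G)} (hG : Nice G 𝒰)
    (l : G →* Multiplicative (ZMod p)) (hl : ∃ g, l g ≠ 1) (hlo : IsOpen (l.ker : Set G)) :
    pc l.ker - (p : ℤ) • (1 : Subgroup G → ℤ) ∈ PB 𝒰 (p ^ 2) (p ^ 3) := by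
  classical
  have hp0 : 0 < p := (Fact.out : p.Prime).pos
  obtain ⟨l2, hl2o, ⟨n, hn, hn2⟩, hl2U⟩ := exists_char p hG hlo
  obtain ⟨N, θ, e1, e2, e3, e4, e5, e5', e6⟩ := hG.emb p Fact.out (l.ker ⊓ l2.ker)
    (by rw [Subgroup.coe_inf]; exact hlo.inter hl2o) inferInstance
  haveI := e1
  obtain ⟨K, hK⟩ := D1B hG e2 e4 e5 e5' e6
  have h1 := relA l l2 hl ⟨n, hn, hn2⟩
  have h2 := hK l hl (e3.trans inf_le_left)
  have h3 : ∀ c : ZMod p, pc ((l2 * l ^ c.val).ker) - pc K ∈ PB 𝒰 (p ^ 2) (p ^ 3) := by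
    intro c
    refine hK _ ⟨n, ?_⟩ ?_
    · rw [MonoidHom.mul_apply, MonoidHom.pow_apply, MonoidHom.mem_ker.1 hn, one_pow, mul_one]
      exact hn2
    · intro u hu
      have hu' := e3 hu
      rw [MonoidHom.mem_ker, MonoidHom.mul_apply, MonoidHom.pow_apply,
        MonoidHom.mem_ker.1 hu'.1, MonoidHom.mem_ker.1 hu'.2, one_pow, mul_one]
  have h4 : (∑ c : ZMod p, pc ((l2 * l ^ c.val).ker)) - (p : ℤ) • pc K ∈
      PB 𝒰 (p ^ 2) (p ^ 3) := by
    have : (p : ℤ) • pc K = ∑ c : ZMod p, pc K := by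
      rw [Finset.sum_const, Finset.card_univ, ZMod.card, natCast_zsmul]
    rw [this, ← Finset.sum_sub_distrib]
    exact AddSubgroup.sum_mem _ fun c _ => h3 c
  have h5 : pc (l.ker ⊓ l2.ker) ∈ PB 𝒰 (p ^ 2) (p ^ 3) :=
    pc_mem_PB (by rw [Subgroup.coe_inf]; exact hlo.inter hl2o)
      (by rw [inf_index l l2 hl ⟨n, hn, hn2⟩]) (by
        rw [inf_index l l2 hl ⟨n, hn, hn2⟩]
        exact Nat.pow_le_pow_right hp0 (by norm_num))
  have h6 : (p : ℤ) • pc l.ker ∈ PB 𝒰 (p ^ 2) (p ^ 3) := by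
    have := smul_pc_memB hG hlo p
    rwa [ker_index l hl, ← sq, ← pow_succ] at this
  have h7 : ∀ U ∈ 𝒰, (pc l.ker - (p : ℤ) • (1 : Subgroup G → ℤ)) U =
      (pc (l.ker ⊓ l2.ker) - ((∑ c : ZMod p, pc ((l2 * l ^ c.val).ker)) - (p : ℤ) • pc K) +
        (p : ℤ) • (pc l.ker - pc K) - (p : ℤ) • pc l.ker) U := by
    intro U hU
    have h8 := h1 U (hl2U U hU)
    simp only [Pi.add_apply, Pi.sub_apply, Pi.smul_apply, Pi.one_apply, smul_eq_mul] at h8 ⊢
    linarith
  refine PB_congr h7 ?_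
  exact AddSubgroup.sub_mem _ (AddSubgroup.add_mem _ (AddSubgroup.sub_mem _ h5 h4)
    (AddSubgroup.zsmul_mem _ h2 _)) h6

/-- normal subgroups of index `p` -/
theorem normal_memB {G : Type} [Group G] [TopologicalSpace G] [IsTopologicalGroup G]
    {𝒰 : Set (Subgroup G)} (hG : Nice G 𝒰) {J : Subgroup G} (hJ : IsOpen (J : Set G)) (hn : J.Normal)
    (hi : J.index = p) : pc J - (p : ℤ) • (1 : Subgroup G → ℤ) ∈ PB 𝒰 (p ^ 2) (p ^ 3) := by
  haveI := hn
  have hcard : Nat.card (G ⧸ J) = p := hi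
  haveI : IsCyclic (G ⧸ J) := isCyclic_of_prime_card hcard
  have hc2 : Nat.card (Multiplicative (ZMod p)) = p := Nat.card_zmod p
  haveI : IsCyclic (Multiplicative (ZMod p)) := isCyclic_of_prime_card hc2
  let e : (G ⧸ J) ≃* Multiplicative (ZMod p) := mulEquivOfCyclicCardEq (by rw [hcard, hc2])
  let l : G →* Multiplicative (ZMod p) := e.toMonoidHom.comp (QuotientGroup.mk' J)
  have hker : l.ker = J := by
    ext g
    rw [MonoidHom.mem_ker]
    change e ((g : G ⧸ J)) = 1 ↔ _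
    rw [MulEquiv.map_eq_one_iff, QuotientGroup.eq_one_iff]
  have hne : ∃ g, l g ≠ 1 := by
    by_contra h
    push Not at h
    have h1 : l.ker = ⊤ := (Subgroup.eq_top_iff' _).2 fun g => h g
    rw [hker] at h1
    rw [h1, Subgroup.index_top] at hi
    exact (Fact.out : p.Prime).one_lt.ne hi
  have h := ker_memB hG l hne (by rw [hker]; exact hJ)
  rwa [hker] at h

end Pool.Agent.TS
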