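import Pool.Agent.TS.B.Def

/-!
# TS/B-Syl: `pc S ≡ [G : S]` modulo `P p` for Sylow subgroups and for all subgroups of index prime
to `p`, with bounds

As H73/DU/CMain.
-/

namespace Pool.Agent.TS

open MulAction Pool.Agent.H73.DU

variable {p : ℕ} [Fact p.Prime]

/-- the bound for Sylow subgroups -/
def bS (p n : ℕ) : ℕ := p ^ (n + 2) * n.factorial

theorem bS_succ (p n : ℕ) : bS p (n + 1) = p * (n + 1) * bS p n := by
  unfold bS
  rw [Nat.factorial_succ]
  ring

theorem pow_le_bS (p n : ℕ) (hp : 0 < p) : p ^ (n + 1) ≤ bS p n := by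
  unfold bS
  calc p ^ (n + 1) ≤ p ^ (n + 2) := Nat.pow_le_pow_right hp (by omega)
    _ ≤ _ := Nat.le_mul_of_pos_right _ (Nat.factorial_pos n)

theorem sq_le_bS (p n : ℕ) (hp : 0 < p) : p ^ 2 * n ≤ bS p n := by
  unfold bS
  rcases Nat.eq_zero_or_pos n with rfl | hn
  · simp
  calc p ^ 2 * n ≤ p ^ (n + 2) * n.factorial := Nat.mul_le_mul
        (Nat.pow_le_pow_right hp (by omega)) (Nat.self_le_factorial n)
    _ = _ := rfl

theorem sq_le_bS' (p n : ℕ) (hp : 0 < p) : p ^ 2 ≤ bS p n := by
  unfold bS
  calc p ^ 2 ≤ p ^ (n + 2) := Nat.pow_le_pow_right hp (by omega)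
    _ ≤ _ := Nat.le_mul_of_pos_right _ (Nat.factorial_pos n)

theorem bS_mono {p n n' : ℕ} (hp : 0 < p) (h : n ≤ n') : bS p n ≤ bS p n' :=
  Nat.mul_le_mul (Nat.pow_le_pow_right hp (by omega)) (Nat.factorial_le h)

theorem le_bS {p : ℕ} (n : ℕ) (hp : 0 < p) : n ≤ bS p n := by
  refine le_trans ?_ (sq_le_bS p n hp)
  exact Nat.le_mul_of_pos_left n (by positivity)

theorem p_smul_memB {G : Type} [Group G] [TopologicalSpace G] [IsTopologicalGroup G]
    {𝒰 : Set (Subgroup G)}
    (hG : Nice G 𝒰) {J : Subgroup G} (hJ : IsOpen (J : Set G)) {B : ℕ}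
    (hB : p ^ 2 * J.index ≤ B) : (p : ℤ) • pc J ∈ PB 𝒰 p B :=
  PB_mono (Dvd.intro _ rfl) hB (smul_pc_memB hG hJ p)

/-- Sylow subgroups -/
theorem sylow_memB (n : ℕ) : ∀ (G : Type) [Group G] [TopologicalSpace G] [IsTopologicalGroup G]
    (𝒰 : Set (Subgroup G)),
    Nice G 𝒰 → ∀ N S : Subgroup G, N.Normal → IsOpen (N : Set G) → PQ p N S → ¬ p ∣ S.index →
    N.index ≤ n → pc S - (S.index : ℤ) • (1 : Subgroup G → ℤ) ∈ PB 𝒰 p (bS p n) := by
  classical
  have hp0 : 0 < p := (Fact.out : p.Prime).pos
  induction n with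
  | zero =>
    intro G _ _ _ 𝒰 hG N S hNn hN hS hSp hn
    have := hG.finiteIndex hN
    exact absurd (Nat.le_zero.1 hn) this.index_ne_zero
  | succ n ih =>
    intro G _ _ _ 𝒰 hG N S hNn hN hS hSp hn
    have := hNn
    have hNf := hG.finiteIndex hN
    have hSo : IsOpen (S : Set G) := Subgroup.isOpen_mono hS.1 hN
    by_cases hStop : S = ⊤
    · subst hStop
      rw [pc_top, Subgroup.index_top, Nat.cast_one, one_smul, sub_self]
      exact AddSubgroup.zero_mem _
    haveI := hG.fin hSo
    haveI : Fintype (G ⧸ S) := Fintype.ofFinite _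
    have hSn : S.index ≤ n + 1 := (Nat.le_of_dvd (Nat.pos_of_ne_zero hNf.index_ne_zero)
      (Subgroup.index_dvd_of_le hS.1)).trans hn
    -- the cocycle
    obtain ⟨N', θ, e1, e2, e3, e4, e5, e5', e6⟩ := hG.emb p Fact.out N hN hNn
    haveI := e1
    haveI := hG.fin e2
    haveI : Fintype (G ⧸ N') := Fintype.ofFinite _
    obtain ⟨D0, hD0⟩ := exists_cdata hG e2 e4 e5 e6
    have hN'S : N' ≤ S := e3.trans hS.1
    haveI : Finite (SZ p S) := inferInstance
    obtain ⟨D, hρ, hgood, -, htr, -⟩ := hD0 (SZ p S) (szRep S) (pull hN'S) (pull_inj hN'S)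
      (fun g m x => pull_equi hN'S g m x)
    -- `p` divides the cardinality of `M`
    have hcard : p ∣ Nat.card (SZ p S) := by
      obtain ⟨f, hf⟩ := sz_ne (p := p) hStop
      haveI : Nontrivial (SZ p S) := ⟨⟨f, 0, hf⟩⟩
      haveI : Module.Finite (ZMod p) (SZ p S) := Module.Finite.of_finite
      rw [Module.natCard_eq_pow_finrank (K := ZMod p), Nat.card_zmod]
      exact dvd_pow_self _ (Module.finrank_pos).ne'
    -- the cardinality of `M`
    have hcardle : Nat.card (SZ p S) ≤ p ^ (n + 1) := by
      have h1 : Nat.card (SZ p S) ≤ Nat.card (G ⧸ S → ZMod p) :=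
        Nat.card_le_card_of_injective _ (Subtype.val_injective)
      have h2 : Nat.card (G ⧸ S → ZMod p) = p ^ S.index := by
        rw [Nat.card_fun, Nat.card_zmod]
        rfl
      rw [h2] at h1
      exact h1.trans (Nat.pow_le_pow_right hp0 hSn)
    have hM1 : p ^ (n + 1) ≤ bS p (n + 1) :=
      (Nat.pow_le_pow_right hp0 (by omega)).trans (pow_le_bS p (n + 1) hp0)
    -- `pch M` is in `P p`
    have hM : pch G (MSet D) ∈ PB 𝒰 p (bS p (n + 1)) := by
      have h1 := relation_fam D (by rw [hρ]; exact sz_selfDual hSp) (𝒰 := 𝒰) (fun U hU =>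
        (e5' U hU).imp_right (htr U))
      have h2 : pch G (TSet D) ∈ PB 𝒰 p (bS p (n + 1)) :=
        pch_mem_PB _ fun x => ⟨(T_stab hgood x).1, by rw [(T_stab hgood x).2]; exact hcard, by
          rw [(T_stab hgood x).2]
          exact hcardle.trans hM1⟩
      have h3 := W_mem D (PB 𝒰 p (bS p (n + 1))) (fun x hx => pc_mem_PB (W_stab hgood x hx).1 (by
        rw [(W_stab hgood x hx).2]; exact Dvd.intro_left _ rfl) (by
        rw [(W_stab hgood x hx).2, index_stabilizer]
        have h6 : (orbit G (⟨x.m⟩ : MSet D)).ncard ≤ p ^ (n + 1) := by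
          refine le_trans ?_ hcardle
          rw [← MSet.card D, ← Set.ncard_univ]
          exact Set.ncard_le_ncard (Set.subset_univ _) (Set.toFinite _)
        calc (orbit G (⟨x.m⟩ : MSet D)).ncard * p ≤ p ^ (n + 1) * p := Nat.mul_le_mul_right _ h6
          _ = p ^ (n + 1 + 1) := by ring
          _ ≤ _ := pow_le_bS p (n + 1) hp0))
      have h4 : (p : ℤ) • (1 : Subgroup G → ℤ) ∈ PB 𝒰 p (bS p (n + 1)) :=
        PB_mono (dvd_refl p) (sq_le_bS' p (n + 1) hp0) (smul_one_memB hG p)
      have h5 : ∀ U ∈ 𝒰, pch G (MSet D) U = ((pch G (WSet D) -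
          (p : ℤ) • (1 : Subgroup G → ℤ)) +
          (p : ℤ) • (1 : Subgroup G → ℤ) - ((p : ℤ) - 1) • pch G (TSet D)) U := by
        intro U hU
        have := h1 U hU
        simp only [Pi.add_apply, Pi.sub_apply] at this ⊢
        rw [this]; ring
      refine PB_congr h5 ?_
      exact AddSubgroup.sub_mem _ (AddSubgroup.add_mem _ h3 h4) (AddSubgroup.zsmul_mem _ h2 _)
    obtain ⟨c, k, hck⟩ := inv_mod (p := p) hSp
    have hpS : (p : ℤ) • pc S ∈ PB 𝒰 p (bS p (n + 1)) :=
      p_smul_memB hG hSo ((Nat.mul_le_mul_left _ hSn).trans (sq_le_bS p (n + 1) hp0))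
    -- orbits
    have key : ∀ x : MSet D, x ≠ ⟨0⟩ →
        pc (stabilizer G x) - ((stabilizer G x).index : ℤ) • (c • pc S) ∈
          PB 𝒰 p (bS p (n + 1)) := by
      intro x hx
      set T := stabilizer G x with hT
      have hTo : IsOpen (T : Set G) := M_open hgood x
      have hNT : N ≤ T := by
        intro u hu
        rw [hT, mem_stabilizer_iff, MSet.smul_def, hρ]
        apply MSet.ext
        change szRep S u x.m = x.m
        apply Subtype.ext
        funext y
        rw [szRep_apply]
        induction y using QuotientGroup.induction_on with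
        | H a =>
          have h3 : u⁻¹ • (a : G ⧸ S) = (a : G ⧸ S) := by
            change ((u⁻¹ * a : G) : G ⧸ S) = _
            rw [QuotientGroup.eq]
            apply hS.1
            have := hNn.conj_mem u hu a⁻¹
            simpa [mul_assoc] using this
          rw [h3]
      have hTn : T.index ≤ n + 1 := (Nat.le_of_dvd (Nat.pos_of_ne_zero hNf.index_ne_zero)
        (Subgroup.index_dvd_of_le hNT)).trans hn
      by_cases hpT : p ∣ T.index
      · refine AddSubgroup.sub_mem _ (pc_mem_PB hTo hpT (hTn.trans (le_bS (n + 1) hp0))) ?_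
        obtain ⟨r, hr⟩ := hpT
        have : (T.index : ℤ) • (c • pc S) = (r * c : ℤ) • ((p : ℤ) • pc S) := by
          rw [smul_smul, smul_smul, hr]
          push_cast
          congr 1
          ring
        rw [this]
        exact AddSubgroup.zsmul_mem _ hpS _
      · have hTtop : T ≠ ⊤ := by
          intro h
          apply hx
          apply MSet.ext
          refine sz_fixed hSp x.m fun g => ?_
          have : g ∈ T := by rw [h]; trivial
          rw [hT, mem_stabilizer_iff, MSet.smul_def, hρ] at this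
          exact congrArg MSet.m this
        obtain ⟨g, hg⟩ := syl_conj N S T hS hNT hpT
        set S' := S.map (MulAut.conj g).toMonoidHom with hS'
        have hcong : N.map (MulAut.conj g).toMonoidHom = N := by
          ext y
          rw [Subgroup.mem_map]
          constructor
          · rintro ⟨z, hz, rfl⟩
            exact hNn.conj_mem z hz g
          · intro hy
            refine ⟨g⁻¹ * y * g⁻¹⁻¹, hNn.conj_mem y hy g⁻¹, ?_⟩
            simp [mul_assoc]
        have hNS' : N ≤ S' := by
          rw [hS', ← hcong]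
          exact Subgroup.map_mono hS.1
        have hS'o : IsOpen (S' : Set G) := Subgroup.isOpen_mono hNS' hN
        have hind : S'.index = S.index := by
          rw [hS', Subgroup.index_map_of_bijective]
          exact (MulAut.conj g).bijective
        have hrel : N.relIndex S' = N.relIndex S := by
          have h1 := Subgroup.relIndex_mul_index hS.1
          have h2 := Subgroup.relIndex_mul_index hNS'
          rw [hind, ← h1] at h2
          have h3 : S.index ≠ 0 := (hG.finiteIndex hSo).index_ne_zero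
          exact Nat.eq_of_mul_eq_mul_right (Nat.pos_of_ne_zero h3) h2
        haveI := hG.sub hTo
        have h1 := ih T _ (hG.sub hTo) (N.subgroupOf T) (S'.subgroupOf T) (hNn.subgroupOf T)
          (open_comap hN T) ⟨fun y hy => hNS' hy, by
            obtain ⟨k', hk'⟩ := hS.2
            refine ⟨k', ?_⟩
            rw [Subgroup.relIndex_subgroupOf hg, hrel, hk']⟩ (by
            intro h
            apply hSp
            rw [← hind, ← Subgroup.relIndex_mul_index hg]
            exact Dvd.dvd.mul_right h _) (by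
            have h2 := Subgroup.relIndex_mul_index hNT
            have h3 : 1 < T.index := by
              rcases Nat.lt_or_ge 1 T.index with h | h
              · exact h
              · exfalso
                have h4 : T.index ≠ 0 := (hG.finiteIndex hTo).index_ne_zero
                exact hTtop (Subgroup.index_eq_one.1 (by omega))
            have h4 : 0 < N.relIndex T := by
              rcases Nat.eq_zero_or_pos (N.relIndex T) with h | h
              · rw [h, zero_mul] at h2
                exact absurd h2.symm hNf.index_ne_zero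
              · exact h
            change N.relIndex T ≤ n
            have : N.relIndex T < N.index := by
              rw [← h2]
              exact lt_mul_of_one_lt_right h4 h3
            omega)
        have h2 := nice_stepB hG hTo hS'o hg h1
        have hbd : bS p n * T.index ≤ bS p (n + 1) := by
          rw [bS_succ]
          calc bS p n * T.index ≤ bS p n * (n + 1) := Nat.mul_le_mul_left _ hTn
            _ = 1 * (n + 1) * bS p n := by ring
            _ ≤ p * (n + 1) * bS p n :=
              Nat.mul_le_mul_right _ (Nat.mul_le_mul_right _ hp0)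
        have h3 := PB_mono (𝒰 := 𝒰) (Dvd.intro _ rfl : p ∣ p * T.index) hbd h2
        rw [hS', pc_conj, ← hS'] at h3
        change pc S - ((S'.relIndex T : ℕ) : ℤ) • pc T ∈ PB 𝒰 p (bS p (n + 1)) at h3
        set r : ℕ := S'.relIndex T with hr
        have hrT : r * T.index = S.index := by
          rw [hr, Subgroup.relIndex_mul_index hg, hind]
        have hrT' : (r : ℤ) * T.index = S.index := by exact_mod_cast hrT
        have hpT' : (p : ℤ) • pc T ∈ PB 𝒰 p (bS p (n + 1)) :=
          p_smul_memB hG hTo ((Nat.mul_le_mul_left _ hTn).trans (sq_le_bS p (n + 1) hp0))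
        have h4 : pc T - (T.index : ℤ) • (c • pc S) =
            - ((T.index * c : ℤ) • (pc S - (r : ℤ) • pc T)) - k • ((p : ℤ) • pc T) := by
          have h5 : (c * S.index : ℤ) = 1 + k * p := hck
          rw [smul_sub, smul_smul, smul_smul, smul_smul]
          have h6 : (T.index : ℤ) * c * r = 1 + k * p := by
            rw [← h5, ← hrT']; ring
          rw [h6, add_smul, one_smul]
          abel
        rw [h4]
        exact AddSubgroup.sub_mem _ (AddSubgroup.neg_mem _ (AddSubgroup.zsmul_mem _ h3 _))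
          (AddSubgroup.zsmul_mem _ hpT' _)
    have h6 := mem_of_orbits_fix (G := G) (MSet D) (PB 𝒰 p (bS p (n + 1))) (c • pc S) ⟨0⟩ (by
      intro g
      rw [MSet.smul_def]
      apply MSet.ext
      exact map_zero _) key
    have h7 : (1 : Subgroup G → ℤ) - c • pc S ∈ PB 𝒰 p (bS p (n + 1)) := by
      obtain ⟨r, hr⟩ := hcard
      have h8 : (1 : Subgroup G → ℤ) - c • pc S = pch G (MSet D) - (r * c : ℤ) • ((p : ℤ) • pc S) -
          ((pch G (MSet D) - (Nat.card (MSet D) : ℤ) • (c • pc S)) - (1 - c • pc S)) := by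
        rw [MSet.card, hr, smul_smul, smul_smul]
        have : ((r : ℤ) * c * p) = ((p * r : ℕ) : ℤ) * c := by push_cast; ring
        rw [this]
        abel
      rw [h8]
      exact AddSubgroup.sub_mem _ (AddSubgroup.sub_mem _ hM (AddSubgroup.zsmul_mem _ hpS _)) h6
    have h9 : pc S - (S.index : ℤ) • (1 : Subgroup G → ℤ) =
        - ((S.index : ℤ) • ((1 : Subgroup G → ℤ) - c • pc S)) - k • ((p : ℤ) • pc S) := by
      rw [smul_sub, smul_smul, smul_smul]
      have : (S.index : ℤ) * c = 1 + k * p := by rw [mul_comm]; exact hck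
      rw [this, add_smul, one_smul]
      abel
    rw [h9]
    exact AddSubgroup.sub_mem _ (AddSubgroup.neg_mem _ (AddSubgroup.zsmul_mem _ h7 _))
      (AddSubgroup.zsmul_mem _ hpS _)

theorem core_index {G : Type} [Group G] (J : Subgroup G) [J.FiniteIndex] :
    J.normalCore.index ≤ J.index.factorial := by
  classical
  haveI : Finite (G ⧸ J) := Subgroup.finite_quotient_of_finiteIndex
  haveI : Fintype (G ⧸ J) := Fintype.ofFinite _
  rw [Subgroup.normalCore_eq_ker, Subgroup.index_ker]
  have h1 : Nat.card (MulAction.toPermHom G (G ⧸ J)).range ≤ Nat.card (Equiv.Perm (G ⧸ J)) :=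
    Subgroup.card_le_card_group _
  refine h1.trans ?_
  rw [Nat.card_eq_fintype_card, Fintype.card_perm, ← Nat.card_eq_fintype_card]
  rfl

/-- subgroups of index prime to `p` -/
theorem prime_to_memB {G : Type} [Group G] [TopologicalSpace G] [IsTopologicalGroup G]
    {𝒰 : Set (Subgroup G)}
    (hG : Nice G 𝒰) {J : Subgroup G} (hJ : IsOpen (J : Set G)) (hp : ¬ p ∣ J.index) :
    pc J - (J.index : ℤ) • (1 : Subgroup G → ℤ) ∈
      PB 𝒰 p (J.index * bS p J.index.factorial) := by
  have hp0 : 0 < p := (Fact.out : p.Prime).pos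
  set N := J.normalCore with hN
  have hNo : IsOpen (N : Set G) := hG.core hJ
  haveI hNn : N.Normal := Subgroup.normalCore_normal J
  haveI := hG.finiteIndex hNo
  haveI hJf := hG.finiteIndex hJ
  have hNi : N.index ≤ J.index.factorial := core_index J
  have hNJ : N ≤ J := Subgroup.normalCore_le J
  have hJ0 : 0 < J.index := Nat.pos_of_ne_zero hJf.index_ne_zero
  obtain ⟨S, hS, hSJ, hSp⟩ := exists_syl p N J hNJ
  have hSo : IsOpen (S : Set G) := Subgroup.isOpen_mono hS.1 hNo
  have hpr : p.Prime := Fact.out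
  have hb1 : bS p J.index.factorial ≤ J.index * bS p J.index.factorial :=
    Nat.le_mul_of_pos_left _ hJ0
  have h1 := PB_mono (𝒰 := 𝒰) (dvd_refl p) hb1
    (sylow_memB (p := p) J.index.factorial G 𝒰 hG N S hNn hNo hS (by
    rw [← Subgroup.relIndex_mul_index hSJ]
    intro h
    rcases hpr.dvd_mul.1 h with h | h
    · exact hSp h
    · exact hp h) hNi)
  have hrel : (N.subgroupOf J).index ≤ J.index.factorial := by
    refine le_trans ?_ hNi
    change N.relIndex J ≤ N.index
    rw [← Subgroup.relIndex_mul_index hNJ]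
    exact Nat.le_mul_of_pos_right _ hJ0
  have h2 := sylow_memB (p := p) J.index.factorial J _ (hG.sub hJ) (N.subgroupOf J)
    (S.subgroupOf J) (hNn.subgroupOf J) (open_comap hNo J) ⟨fun y hy => hS.1 hy, by
      obtain ⟨k', hk'⟩ := hS.2
      exact ⟨k', by rw [Subgroup.relIndex_subgroupOf hSJ, hk']⟩⟩ hSp hrel
  have h3 := PB_mono (𝒰 := 𝒰) (Dvd.intro _ rfl : p ∣ p * J.index)
    (mul_comm (bS p J.index.factorial) J.index).le (nice_stepB hG hJ hSo hSJ h2)
  change pc S - ((S.relIndex J : ℕ) : ℤ) • pc J ∈
    PB 𝒰 p (J.index * bS p J.index.factorial) at h3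
  set r := S.relIndex J with hr
  have h4 : (r : ℤ) • (pc J - (J.index : ℤ) • (1 : Subgroup G → ℤ)) ∈
      PB 𝒰 p (J.index * bS p J.index.factorial) := by
    have : (r : ℤ) • (pc J - (J.index : ℤ) • (1 : Subgroup G → ℤ)) =
        (pc S - (S.index : ℤ) • (1 : Subgroup G → ℤ)) - (pc S - (r : ℤ) • pc J) := by
      rw [smul_sub, smul_smul, hr, ← Nat.cast_mul, Subgroup.relIndex_mul_index hSJ]
      abel
    rw [this]
    exact AddSubgroup.sub_mem _ h1 h3
  have hb2 : p ^ 2 * J.index ≤ J.index * bS p J.index.factorial := by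
    rw [mul_comm]
    exact Nat.mul_le_mul_left _ (sq_le_bS' p _ hp0)
  have hb3 : p ^ 2 ≤ J.index * bS p J.index.factorial := (sq_le_bS' p _ hp0).trans hb1
  have h5 : (p : ℤ) • (pc J - (J.index : ℤ) • (1 : Subgroup G → ℤ)) ∈
      PB 𝒰 p (J.index * bS p J.index.factorial) := by
    rw [smul_sub, smul_comm]
    exact AddSubgroup.sub_mem _ (p_smul_memB hG hJ hb2)
      (AddSubgroup.zsmul_mem _ (PB_mono (dvd_refl p) hb3 (smul_one_memB hG p)) _)
  exact mem_of_coprime ((Nat.Prime.coprime_iff_not_dvd hpr).2 hSp).symm h4 h5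

end Pool.Agent.TS
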